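import Pool.Agent.X312.FC.Defs
import Pool.Agent.X312.FM.Grp
import Pool.Agent.X312.FN.Law

/-!
# Functors on the correspondences of a ring family: gap laws
-/

open CategoryTheory AlgebraicGeometry

universe u v w

namespace Pool.Agent.X312.FC

open Module Polynomial
open Pool.Agent.H914 Pool.Agent.H914.VarClass Pool.Agent.H914.VarClass.Obj
  Pool.Agent.H914.WeilCohomology Pool.Agent.Y133.Half Pool.Agent.Y133.Half.Sys
  Pool.Agent.H281R3.HT Pool.Agent.W536.RR Pool.Agent.X312.RL Pool.Agent.X312.FK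
  Pool.Agent.X312.FM

variable {k : Type u} [Field k] {𝒱 : VarClass k} {ops : CycleOps 𝒱}
  {W : WeilCohomology.{u, v} ops} {X Y Z P : 𝒱.Obj} {C : Family W}

/-- The gap law for a module over the correspondences of a nondegenerate system. -/
theorem sys_law {S : Sys W} {F : Type w} [Field F] {σ : F →+* W.K} {V : 𝒱.Obj → Type w}
    [∀ X, AddCommGroup (V X)] [∀ X, Module F (V X)] {R : Ops W F V} (hM : IsMdl S σ R)
    (X : 𝒱.Obj) (hf : ∀ n, Fine σ R (pw X n))
    (hn : ∀ n, S.a (pw X n) = finrank W.K (S.C (pw X n))) (m : ℕ) :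
    (∀ x : V (pw X m), x = 0) ∨ ∀ n, FiniteDimensional F (V (pw X n)) →
      (1 - cst (finrank W.K (W.H X)) (m + 1) 2 n) * S.a (pw X n) ≤ finrank F (V (pw X n)) := by
  by_cases hne : ∀ x : V (pw X m), x = 0
  · exact Or.inl hne
  right
  intro n hfd
  rcases S.exists_one_or X with ⟨l, hl, hl1⟩ | h0
  swap
  · rw [h0, Nat.cast_zero, mul_zero]
    exact Nat.cast_nonneg _
  have hne' : (⊥ : Submodule F (V (pw X m))) ≠ ⊤ := by
    intro h
    apply hne
    intro x
    have h1 : x ∈ (⊤ : Submodule F (V (pw X m))) := Submodule.mem_top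
    rw [← h, Submodule.mem_bot] at h1
    exact h1
  have hz : Stable R (fun _ => ⊥) := by
    intro X Z a _ x hx
    rw [(Submodule.mem_bot F).1 hx, map_zero]
    exact Submodule.zero_mem _
  have ht : Stable R (fun _ => ⊤) := fun X Z a _ x _ => Submodule.mem_top
  have hfd' : FiniteDimensional F (⊤ : Submodule F (V (pw X n))) :=
    Module.Finite.equiv (Submodule.topEquiv).symm
  have key := hM.bound hl hl1 hf hz ht (fun _ => bot_le) hne' (le_refl (2 : ℝ)) n hfd'
  rw [finrank_bot, Nat.cast_zero, zero_add, finrank_top] at key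
  rcases key with h | h
  · exact h
  · have h3 := h S
    rw [← hn n] at h3
    have h4 : (0 : ℝ) ≤ S.a (pw X n) := Nat.cast_nonneg _
    have h5 : (S.a (pw X n) : ℝ) = 0 := by linarith
    rw [h5, mul_zero]
    exact Nat.cast_nonneg _

/-- Stable families of subspaces. -/
def StableC (C : Family W) (T : CorrData W) (N : ∀ Z : 𝒱.Obj, Submodule W.K (T.M Z)) : Prop :=
  ∀ (Z Z' : 𝒱.Obj) (c : W.H (Z.prod Z')), Has C c → ∀ x : T.M Z, x ∈ N Z → T.act c x ∈ N Z'

variable {T : CorrData W}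

/-- The subquotient. -/
abbrev Quo (N' N : ∀ Z : 𝒱.Obj, Submodule W.K (T.M Z)) (Z : 𝒱.Obj) : Type v :=
  (N Z).map (N' Z).mkQ

/-- The class of an element in the subquotient. -/
def cls {N' N : ∀ Z : 𝒱.Obj, Submodule W.K (T.M Z)} {Z : 𝒱.Obj} (x : T.M Z) (hx : x ∈ N Z) :
    Quo N' N Z :=
  ⟨(N' Z).mkQ x, x, hx, rfl⟩

/-- The pairs of operators. -/
def cOps (C : Family W) (T : CorrData W) (N' N : ∀ Z : 𝒱.Obj, Submodule W.K (T.M Z)) :
    Ops W W.K (Quo N' N) :=
  fun Z Z' => {a | ∃ c ∈ C (Z.prod Z'), a.2 = W.corr c ∧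
    ∀ (x : T.M Z) (hx : x ∈ N Z), (a.1 (cls x hx)).1 = (N' Z').mkQ (T.act c x)}

section

variable (hC : IsRingFamily C) (hT : T.IsFunctor C)
  {N' N : ∀ Z : 𝒱.Obj, Submodule W.K (T.M Z)} (hN' : StableC C T N') (hN : StableC C T N)

/-- The action as a linear map. -/
noncomputable def actL (hT : T.IsFunctor C) (c : W.H (X.prod Y)) : T.M X →ₗ[W.K] T.M Y where
  toFun := T.act c
  map_add' := hT.act_add c
  map_smul' t x := hT.act_smul c t x

/-- The action on the subquotient. -/
noncomputable def actQ {c : W.H (X.prod Y)} (hc : Has C c) : Quo N' N X →ₗ[W.K] Quo N' N Y :=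
  ((N' X).mapQ (N' Y) (actL hT c) (fun x hx => hN' X Y c hc x hx)).restrict (by
    rintro _ ⟨x, hx, rfl⟩
    exact ⟨T.act c x, hN X Y c hc x hx, rfl⟩)

omit hT in
lemma cls_surj {Z : 𝒱.Obj} (y : Quo N' N Z) : ∃ (x : T.M Z) (hx : x ∈ N Z), y = cls x hx := by
  obtain ⟨_, x, hx, rfl⟩ := y
  exact ⟨x, hx, rfl⟩

include hT

lemma zero_act (x : T.M X) : T.act (0 : W.H (X.prod Y)) x = 0 := by
  have h := hT.smul_act (0 : W.K) (0 : W.H (X.prod Y)) x
  rwa [zero_smul, zero_smul] at h

include hC hN' hN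

lemma c_isMdl : IsMdl (sysOf hC) (RingHom.id W.K) (cOps C T N' N) := by
  refine ⟨?_, ?_, ?_, ?_, ?_⟩
  · rintro Z Z' a b ⟨c, hc, h1, h2⟩ ⟨d, hd, h3, h4⟩
    refine ⟨c + d, Submodule.add_mem _ hc hd, ?_, fun x hx => ?_⟩
    · change a.2 + b.2 = _
      rw [h1, h3, corr_add]
    · change ((a.1 + b.1) _).1 = _
      rw [LinearMap.add_apply, Submodule.coe_add, h2, h4, hT.add_act, map_add]
  · rintro Z Z' t a ⟨c, hc, h1, h2⟩
    refine ⟨t • c, Submodule.smul_mem _ _ hc, ?_, fun x hx => ?_⟩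
    · change t • a.2 = _
      rw [h1, corr_smul]
    · change ((t • a.1) _).1 = _
      rw [LinearMap.smul_apply, Submodule.coe_smul, h2, hT.smul_act, map_smul]
  · intro Z
    refine ⟨diagClass W Z, (sysOf hC).diag_mem, ?_, fun x hx => ?_⟩
    · change LinearMap.id = _
      rw [diagClass, pf, unitClass, corr_diag_one]
    · change (N' Z).mkQ x = _
      rw [hT.diag_act]
  · rintro Z Z' Z'' a b ⟨c, hc, h1, h2⟩ ⟨d, hd, h3, h4⟩
    have h5 : W.corr (composite W d c) = W.corr c ∘ₗ W.corr d := by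
      rw [composite, pf, cup, pb, pb]
      exact corr_comp' _ ((sysOf hC).even hc)
    refine ⟨composite W d c, (sysOf hC).comp_mem hd hc, ?_, fun x hx => ?_⟩
    · change a.2 ∘ₗ b.2 = _
      rw [h5, h1, h3]
    · change (a.1 (b.1 (cls x hx))).1 = _
      have h6 : b.1 (cls x hx) = cls (T.act d x) (hN _ _ d hd x hx) := Subtype.ext (h4 x hx)
      rw [h6, h2, hT.comp_act d c hd hc]
  · intro Z Z'
    have h1 : Prod.snd '' cOps C T N' N Z Z' =
        ((sysOf hC).Op Z Z' : Set (W.H Z →ₗ[W.K] W.H Z')) := by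
      ext u
      constructor
      · rintro ⟨a, ⟨c, hc, h1, h2⟩, rfl⟩
        exact mem_Op.2 ⟨c, hc, h1.symm⟩
      · intro hu
        obtain ⟨c, hc, rfl⟩ := mem_Op.1 hu
        exact ⟨(actQ hT hN' hN hc, W.corr c), ⟨c, hc, rfl, fun _ _ => rfl⟩, rfl⟩
    rw [h1, Submodule.span_eq]

lemma c_fine (P : 𝒱.Obj) : Fine (RingHom.id W.K) (cOps C T N' N) P := by
  refine ⟨?_, ?_⟩
  · rintro ⟨a, b⟩ hab
    refine ⟨LinearMap.charpoly b, b.charpoly_monic.ne_zero, ?_, ?_⟩
    · have h1 := (c_isMdl hC hT hN' hN).aeval_mem (x := (a, b)) hab b.charpoly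
      obtain ⟨c, hc, h2, h3⟩ := h1
      have h4 : aeval (b : Module.End W.K (W.H P)) (b.charpoly.map (RingHom.id W.K)) = 0 := by
        rw [Polynomial.map_id]
        exact LinearMap.aeval_self_charpoly b
      have h5 : c = 0 := by
        apply corrL_injective P P
        change W.corr c = W.corr 0
        rw [corr_zero, ← h2]
        exact h4
      apply LinearMap.ext
      intro y
      obtain ⟨x, hx, rfl⟩ := cls_surj y
      have h6 := h3 x hx
      rw [h5, zero_act hT, map_zero] at h6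
      exact Subtype.ext h6
    · rw [Polynomial.map_id]
      exact LinearMap.aeval_self_charpoly b
  · rintro ⟨a, b⟩ ⟨c, hc, h1, h2⟩ - h0
    change b = 0 at h0
    change b = W.corr c at h1
    have h5 : c = 0 := by
      apply corrL_injective P P
      change W.corr c = W.corr 0
      rw [corr_zero, ← h1, h0]
    change a = 0
    apply LinearMap.ext
    intro y
    obtain ⟨x, hx, rfl⟩ := cls_surj y
    apply Subtype.ext
    have h6 := h2 x hx
    rw [h5, zero_act hT, map_zero] at h6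
    exact h6

/-- **The gap law for functors on the correspondences of a nondegenerate ring family.** -/
theorem fun_law (X : 𝒱.Obj) (hX : ∀ n, IsNondeg C (pw X n)) (m : ℕ) :
    N (pw X m) ≤ N' (pw X m) ∨
    ∀ n : ℕ, FK.IndepMod (N (pw X n) : Set (T.M (pw X n))) (N' (pw X n))
      (FM.gapBound (finrank W.K (W.H X)) (dimOn C (pw X n)) m n) := by
  rcases sys_law (c_isMdl hC hT hN' hN) X (fun n => c_fine hC hT hN' hN (pw X n))
    (fun n => (a_eq hC (hX n)).trans rfl) m with h | h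
  · left
    intro x hx
    have h1 := h (cls x hx)
    have h2 : (N' (pw X m)).mkQ x = 0 := congrArg Subtype.val h1
    rwa [Submodule.mkQ_apply, Submodule.Quotient.mk_eq_zero] at h2
  · right
    intro n
    have key : Pool.Agent.X312.FN.IndepModulo W.K (N (pw X n) : Set (T.M (pw X n)))
        (N' (pw X n) : Set (T.M (pw X n)))
        (FM.gapBound (finrank W.K (W.H X)) (dimOn C (pw X n)) m n) := by
      refine Pool.Agent.X312.FN.indep_of _ _ fun hfd => ?_
      have h1 := h n hfd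
      rw [a_eq hC (hX n)] at h1
      have h4 : cst (finrank W.K (W.H X)) (m + 1) 2 n =
          4 * (m + 4) * (finrank W.K (W.H X) : ℝ) ^ (m + 6) * Real.log (n + 2) / (n + 1) := by
        unfold cst
        push_cast
        ring
      rw [h4] at h1
      exact h1
    obtain ⟨r, a, h1, h2, h3⟩ := key
    rw [Submodule.span_eq] at h2
    exact ⟨r, a, h1, h2, h3⟩

end

end Pool.Agent.X312.FC
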