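import Mathlib.LinearAlgebra.Eigenspace.Basic
import Pool.Agent.X312.FC.Main

/-!
# Functors on the correspondences of a ring family: vanishing, kernels, eigenvalues
-/

open CategoryTheory AlgebraicGeometry

universe u v w

namespace Pool.Agent.X312.FC

open Module
open Pool.Agent.H914 Pool.Agent.H914.VarClass Pool.Agent.H914.VarClass.Obj
  Pool.Agent.H914.WeilCohomology Pool.Agent.Y133.Half Pool.Agent.Y133.Half.Sys

open Pool.Agent.X312.FM (Family Has IsRingFamily IsNondeg dimOn)

variable {k : Type u} [Field k] {𝒱 : VarClass k} {ops : CycleOps 𝒱}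
  {W : WeilCohomology.{u, v} ops} {X Y Z P : 𝒱.Obj} {C : Family W} {S T : CorrData W}

lemma bot_stable (hT : T.IsFunctor C) : StableC C T (fun _ => ⊥) := by
  intro Z Z' c _ x hx
  rw [(Submodule.mem_bot W.K).1 hx]
  exact (Submodule.mem_bot W.K).2 (map_zero (actL hT c))

lemma top_stable : StableC C T (fun _ => ⊤) := fun _ _ _ _ _ _ => Submodule.mem_top

/-- **Vanishing law.** -/
theorem zero_law (hC : IsRingFamily C) (hT : T.IsFunctor C) (X : 𝒱.Obj)
    (hX : ∀ n, IsNondeg C (pw X n)) (m : ℕ) :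
    (∀ x : T.M (pw X m), x = 0) ∨
    ∀ n : ℕ, FK.DimAtLeast W.K (T.M (pw X n))
      (FM.gapBound (finrank W.K (W.H X)) (dimOn C (pw X n)) m n) := by
  rcases fun_law hC hT (bot_stable hT) top_stable X hX m with h | h
  · exact Or.inl fun x => (Submodule.mem_bot W.K).1 (h (Submodule.mem_top (x := x)))
  · right
    intro n
    obtain ⟨r, a, h1, h2, h3⟩ := h n
    exact ⟨r, a, h1, LinearIndependent.of_comp (⊥ : Submodule W.K (T.M (pw X n))).mkQ h2⟩

variable {f : ∀ Z : 𝒱.Obj, S.M Z → T.M Z}

/-- The map as a linear map. -/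
def natL (hf : IsNatural C S T f) (Z : 𝒱.Obj) : S.M Z →ₗ[W.K] T.M Z where
  toFun := f Z
  map_add' := hf.add Z
  map_smul' t x := hf.smul Z t x

/-- **Kernel law.** -/
theorem ker_law (hC : IsRingFamily C) (hS : S.IsFunctor C) (hT : T.IsFunctor C)
    (hf : IsNatural C S T f) (X : 𝒱.Obj) (hX : ∀ n, IsNondeg C (pw X n)) (m : ℕ) :
    (∀ x : S.M (pw X m), f _ x = 0 → x = 0) ∨
    ∀ n : ℕ, FK.IndepMod {x : S.M (pw X n) | f _ x = 0} (⊥ : Submodule W.K (S.M (pw X n)))
      (FM.gapBound (finrank W.K (W.H X)) (dimOn C (pw X n)) m n) := by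
  rcases fun_law hC hS (bot_stable hS) (N := fun Z => LinearMap.ker (natL hf Z))
    (by
      intro Z Z' c hc x hx
      have h1 : f Z x = 0 := hx
      change f Z' (S.act c x) = 0
      rw [← hf.comm c hc, h1]
      exact map_zero (actL hT c)) X hX m with h | h
  · exact Or.inl fun x hx => (Submodule.mem_bot W.K).1 (h hx)
  · exact Or.inr h

/-- **Cokernel law.** -/
theorem coker_law (hC : IsRingFamily C) (hS : S.IsFunctor C) (hT : T.IsFunctor C)
    (hf : IsNatural C S T f) (X : 𝒱.Obj) (hX : ∀ n, IsNondeg C (pw X n)) (m : ℕ) :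
    (∀ y : T.M (pw X m), ∃ x, f _ x = y) ∨
    ∀ n : ℕ, FK.IndepMod (Set.univ : Set (T.M (pw X n)))
      (Submodule.span W.K (Set.range (f (pw X n))))
      (FM.gapBound (finrank W.K (W.H X)) (dimOn C (pw X n)) m n) := by
  rcases fun_law hC hT (N' := fun Z => LinearMap.range (natL hf Z))
    (by
      rintro Z Z' c hc _ ⟨x, rfl⟩
      exact ⟨S.act c x, (hf.comm c hc x).symm⟩) top_stable X hX m with h | h
  · exact Or.inl fun y => h (Submodule.mem_top (x := y))
  · right
    intro n
    have h1 : Submodule.span W.K (Set.range (f (pw X n))) = LinearMap.range (natL hf (pw X n)) := by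
      have h2 : Set.range (f (pw X n)) = (LinearMap.range (natL hf (pw X n)) : Set _) := by
        ext y; rfl
      rw [h2, Submodule.span_eq]
    rw [h1]
    exact h n

variable {g : ∀ Z : 𝒱.Obj, T.M Z → T.M Z}

/-- **The law for eigenvalues.** -/
theorem eig_law (hC : IsRingFamily C) (hT : T.IsFunctor C) (hg : IsNatural C T T g)
    (B : Set W.K) (X : 𝒱.Obj) (hX : ∀ n, IsNondeg C (pw X n)) (m n : ℕ) :
    FK.IndepMod {x : T.M (pw X n) | ∃ t ∈ B, g _ x = t • x} (⊥ : Submodule W.K (T.M (pw X n)))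
      (Set.ncard {t ∈ B | ∃ x : T.M (pw X m), x ≠ 0 ∧ g _ x = t • x} *
        FM.gapBound (finrank W.K (W.H X)) (dimOn C (pw X n)) m n) := by
  classical
  set c := FM.gapBound (finrank W.K (W.H X)) (dimOn C (pw X n)) m n with hc
  set Λ : Set W.K := {t ∈ B | ∃ x : T.M (pw X m), x ≠ 0 ∧ g _ x = t • x} with hΛ
  rcases Set.finite_or_infinite Λ with hfin | hinf
  swap
  · refine ⟨0, Fin.elim0, ?_, linearIndependent_empty_type, fun j => j.elim0⟩
    rw [hinf.ncard, Nat.cast_zero, zero_mul]
  have : Fintype Λ := hfin.fintype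
  have key : ∀ t : Λ, ∃ (r : ℕ) (a : Fin r → T.M (pw X n)),
      c ≤ r ∧ LinearIndependent W.K a ∧ ∀ j, g _ (a j) = t.1 • a j := by
    intro t
    rcases fun_law hC hT (bot_stable hT) (N := fun Z => LinearMap.ker (natL hg Z - t.1 • LinearMap.id))
      (by
        intro Z Z' c hc x hx
        rw [LinearMap.mem_ker, LinearMap.sub_apply, LinearMap.smul_apply, LinearMap.id_apply,
          sub_eq_zero] at hx ⊢
        change g Z x = t.1 • x at hx
        change g Z' (T.act c x) = t.1 • T.act c x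
        rw [← hg.comm c hc, hx, hT.act_smul]) X hX m with h | h
    · obtain ⟨_, x, hx, hx'⟩ := t.2
      refine absurd ((Submodule.mem_bot W.K).1 (h ?_)) hx
      rw [LinearMap.mem_ker, LinearMap.sub_apply, LinearMap.smul_apply, LinearMap.id_apply,
        sub_eq_zero]
      exact hx'
    · obtain ⟨r, a, h1, h2, h3⟩ := h n
      refine ⟨r, a, h1, LinearIndependent.of_comp (⊥ : Submodule W.K (T.M (pw X n))).mkQ h2, ?_⟩
      intro j
      have h4 : a j ∈ LinearMap.ker (natL hg (pw X n) - t.1 • LinearMap.id) := h3 j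
      rw [LinearMap.mem_ker, LinearMap.sub_apply, LinearMap.smul_apply, LinearMap.id_apply,
        sub_eq_zero] at h4
      exact h4
  choose r a hr ha ha' using key
  have hlin : LinearIndependent W.K (fun s : Σ t : Λ, Fin (r t) => a s.1 s.2) := by
    refine linearIndependent_iUnion_finite ha ?_
    intro t s _ hts
    have h1 : ∀ t : Λ, Submodule.span W.K (Set.range (a t)) ≤
        Module.End.eigenspace (natL hg (pw X n)) t.1 := by
      intro t
      refine Submodule.span_le.2 ?_
      rintro _ ⟨j, rfl⟩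
      exact Module.End.mem_eigenspace_iff.2 (ha' t j)
    have h2 := Module.End.eigenspaces_iSupIndep (natL hg (pw X n)) t.1
    refine h2.mono (h1 t) ?_
    refine iSup₂_le fun t' ht' => (h1 t').trans ?_
    refine le_iSup₂_of_le t'.1 ?_ le_rfl
    intro h
    exact hts (by rwa [Subtype.ext h] at ht')
  refine ⟨Fintype.card (Σ t : Λ, Fin (r t)), fun j => a _ ((Fintype.equivFin _).symm j).2,
    ?_, ?_, ?_⟩
  · rw [Fintype.card_sigma]
    simp only [Fintype.card_fin]
    have h1 : Λ.ncard = (Finset.univ : Finset Λ).card := by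
      rw [Finset.card_univ, Set.ncard_eq_toFinset_card', Set.toFinset_card]
    rw [h1, ← nsmul_eq_mul]
    push_cast
    exact Finset.card_nsmul_le_sum _ _ _ fun t _ => hr t
  · have h1 := hlin.comp _ (Fintype.equivFin (Σ t : Λ, Fin (r t))).symm.injective
    exact h1.map' (⊥ : Submodule W.K (T.M (pw X n))).mkQ
      ((Submodule.ker_mkQ _).trans rfl)
  · intro j
    exact ⟨_, ((Fintype.equivFin (Σ t : Λ, Fin (r t))).symm j).1.2.1, ha' _ _⟩

end Pool.Agent.X312.FC
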