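import Pool.Agent.X312.FC.Defs

/-!
# Ranks of correspondences
-/

open CategoryTheory AlgebraicGeometry

universe u v

namespace Pool.Agent.X312.FC

open Pool.Agent.H914 Pool.Agent.H914.VarClass Pool.Agent.H914.VarClass.Obj
  Pool.Agent.H914.WeilCohomology Pool.Agent.X312.FK Pool.Agent.X312.FM

variable {k : Type u} [Field k] {𝒱 : VarClass k} {ops : CycleOps 𝒱}
  {W : WeilCohomology.{u, v} ops}

/-- The rank of the self-correspondence `g`: the dimension of the image of the endomorphism of the
cohomology given by `g`. -/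
noncomputable def corrRank {Z : 𝒱.Obj} (g : W.H (Z.prod Z)) : ℕ :=
  Module.finrank W.K (LinearMap.range (W.corr g))

/-- The number `(d - 4 (m + 3) b ^ (m + 5) log (n + 1) / n) ρ`, with `m` and `n` replaced by `m + 1` and
`n + 1`. -/
noncomputable def rankBound (d b ρ m n : ℕ) : ℝ :=
  (d - 4 * (m + 4) * (b : ℝ) ^ (m + 6) * Real.log (n + 2) / (n + 1)) * ρ

/-- Every idempotent self-correspondence in `C` of a member `Z` of the sequence `P` of varieties which
does not act as zero on `T(Z)` has rank at least `d`. -/
def RankAtLeast (C : Family W) (T : CorrData W) (P : ℕ → 𝒱.Obj) (d : ℕ) : Prop :=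
  ∀ (l : ℕ) (g : W.H ((P l).prod (P l))), Has C g → composite W g g = g →
    (∃ x : T.M (P l), T.act g x ≠ 0) → d ≤ corrRank g

end Pool.Agent.X312.FC
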