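import Pool.Agent.X312.DR.Bound
import Pool.Agent.X312.FC.Laws
import Pool.Agent.X312.FC.RankDefs

/-!
# Functors on the correspondences of a ring family: gap laws with ranks
-/

open CategoryTheory AlgebraicGeometry

universe u v w

namespace Pool.Agent.X312.FC

open Module
open Pool.Agent.H914 Pool.Agent.H914.VarClass Pool.Agent.H914.VarClass.Obj
  Pool.Agent.H914.WeilCohomology Pool.Agent.Y133.Half Pool.Agent.Y133.Half.Sys
  Pool.Agent.H281R3.HT Pool.Agent.W536.RR Pool.Agent.X312.RL Pool.Agent.X312.FK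
  Pool.Agent.X312.FM Pool.Agent.X312.DR

variable {k : Type u} [Field k] {𝒱 : VarClass k} {ops : CycleOps 𝒱}
  {W : WeilCohomology.{u, v} ops} {X Y Z P : 𝒱.Obj} {C : Family W}

/-- The gap law with ranks for a module over the correspondences of a nondegenerate system. -/
theorem sys_rank {S : Sys W} {F : Type w} [Field F] {σ : F →+* W.K} {V : 𝒱.Obj → Type w}
    [∀ X, AddCommGroup (V X)] [∀ X, Module F (V X)] {R : Ops W F V} (hM : IsMdl S σ R)
    (X : 𝒱.Obj) (hf : ∀ n, Fine σ R (pw X n))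
    (hn : ∀ n, S.a (pw X n) = finrank W.K (S.C (pw X n))) {d : ℕ}
    (hd : ∀ l, ∀ a ∈ R (pw X l) (pw X l), a.1 ∘ₗ a.1 = a.1 → a.2 ∘ₗ a.2 = a.2 →
      (∃ z, a.1 z ≠ 0) → d ≤ finrank W.K (LinearMap.range a.2)) (m : ℕ) :
    (∀ x : V (pw X m), x = 0) ∨ ∀ n, FiniteDimensional F (V (pw X n)) →
      (d - cst (finrank W.K (W.H X)) (m + 1) 2 n) * S.a (pw X n) ≤ finrank F (V (pw X n)) := by
  by_cases hne : ∀ x : V (pw X m), x = 0
  · exact Or.inl hne
  right
  intro n hfd
  rcases S.exists_one_or X with ⟨l, hl, hl1⟩ | h0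
  swap
  · rw [h0, Nat.cast_zero, mul_zero]
    exact Nat.cast_nonneg _
  have hne' : (⊥ : Submodule F (V (pw X m))) ≠ ⊤ := by
    intro h
    apply hne
    intro x
    have h1 : x ∈ (⊤ : Submodule F (V (pw X m))) := Submodule.mem_top
    rw [← h, Submodule.mem_bot] at h1
    exact h1
  have hz : Stable R (fun _ => ⊥) := by
    intro X Z a _ x hx
    rw [(Submodule.mem_bot F).1 hx, map_zero]
    exact Submodule.zero_mem _
  have ht : Stable R (fun _ => ⊤) := fun X Z a _ x _ => Submodule.mem_top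
  have hfd' : FiniteDimensional F (⊤ : Submodule F (V (pw X n))) :=
    Module.Finite.equiv (Submodule.topEquiv).symm
  have key := bound_rank hM hl hl1 hf hz ht (fun _ => bot_le) hne' (d := d)
    (fun l a ha h1 h2 ⟨z, _, hz⟩ => hd l a ha h1 h2 ⟨z, fun h => hz (by
      rw [h]; exact Submodule.zero_mem _)⟩) (le_refl (2 : ℝ)) n hfd'
  rw [finrank_bot, Nat.cast_zero, zero_add, finrank_top] at key
  rcases key with h | h
  · exact h
  · have h3 := h S
    rw [← hn n] at h3
    have h4 : (0 : ℝ) ≤ S.a (pw X n) := Nat.cast_nonneg _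
    have h5 : (S.a (pw X n) : ℝ) = 0 := by linarith
    rw [h5, mul_zero]
    exact Nat.cast_nonneg _

variable {T : CorrData W}

/-- **The gap law with ranks.** -/
theorem rank_law (hC : IsRingFamily C) (hT : T.IsFunctor C) (X : 𝒱.Obj)
    (hX : ∀ n, IsNondeg C (pw X n)) {d : ℕ} (hd : RankAtLeast C T (pw X) d) (m : ℕ) :
    (∀ x : T.M (pw X m), x = 0) ∨
    ∀ n : ℕ, DimAtLeast W.K (T.M (pw X n))
      (rankBound d (finrank W.K (W.H X)) (dimOn C (pw X n)) m n) := by
  have hN' := bot_stable hT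
  have hN : StableC C T (fun _ => ⊤) := top_stable
  have hd' : ∀ l, ∀ a ∈ cOps C T (fun _ => ⊥) (fun _ => ⊤) (pw X l) (pw X l),
      a.1 ∘ₗ a.1 = a.1 → a.2 ∘ₗ a.2 = a.2 → (∃ z, a.1 z ≠ 0) →
      d ≤ finrank W.K (LinearMap.range a.2) := by
    rintro l ⟨a, b⟩ ⟨c, hc, h1, h2⟩ _ hbb ⟨z, hz⟩
    change b = W.corr c at h1
    change b ∘ₗ b = b at hbb
    change d ≤ finrank W.K (LinearMap.range b)
    have h5 : W.corr (composite W c c) = W.corr c ∘ₗ W.corr c := by
      rw [composite, pf, cup, pb, pb]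
      exact corr_comp' _ ((sysOf hC).even hc)
    rw [h1] at hbb ⊢
    refine hd l c hc (corrL_injective _ _ (h5.trans hbb)) ?_
    obtain ⟨x, hx, rfl⟩ := cls_surj z
    refine ⟨x, fun h0 => hz ?_⟩
    apply Subtype.ext
    have h6 := h2 x hx
    rw [h0, map_zero] at h6
    exact h6
  rcases sys_rank (c_isMdl hC hT hN' hN) X (fun n => c_fine hC hT hN' hN (pw X n))
    (fun n => (a_eq hC (hX n)).trans rfl) hd' m with h | h
  · left
    intro x
    have h1 := h (cls x Submodule.mem_top)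
    have h2 : (⊥ : Submodule W.K (T.M (pw X m))).mkQ x = 0 := congrArg Subtype.val h1
    rwa [Submodule.mkQ_apply, Submodule.Quotient.mk_eq_zero, Submodule.mem_bot] at h2
  · right
    intro n
    have key : Pool.Agent.X312.FN.IndepModulo W.K
        (((⊤ : Submodule W.K (T.M (pw X n))) : Set (T.M (pw X n))))
        (((⊥ : Submodule W.K (T.M (pw X n))) : Set (T.M (pw X n))))
        (rankBound d (finrank W.K (W.H X)) (dimOn C (pw X n)) m n) := by
      refine Pool.Agent.X312.FN.indep_of _ _ fun hfd => ?_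
      have h1 := h n hfd
      rw [a_eq hC (hX n)] at h1
      have h4 : cst (finrank W.K (W.H X)) (m + 1) 2 n =
          4 * (m + 4) * (finrank W.K (W.H X) : ℝ) ^ (m + 6) * Real.log (n + 2) / (n + 1) := by
        unfold cst
        push_cast
        ring
      rw [h4] at h1
      exact h1
    obtain ⟨r, a, h1, h2, h3⟩ := key
    rw [Submodule.span_eq] at h2
    exact ⟨r, a, h1, LinearIndependent.of_comp (⊥ : Submodule W.K (T.M (pw X n))).mkQ h2⟩

end Pool.Agent.X312.FC
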