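import Pool.Agent.X312.DR.Prim
import Pool.Agent.X312.FC.Rank
import Pool.Agent.X312.FK.PrimDefs

/-!
# Functors on the correspondences of a ring family: irreducible motives
-/

open CategoryTheory AlgebraicGeometry

universe u v w

namespace Pool.Agent.X312.FC

open Module
open Pool.Agent.H914 Pool.Agent.H914.VarClass Pool.Agent.H914.VarClass.Obj
  Pool.Agent.H914.WeilCohomology Pool.Agent.Y133.Half Pool.Agent.Y133.Half.Sys
  Pool.Agent.H281R3.HT Pool.Agent.W536.RR Pool.Agent.X312.RL Pool.Agent.X312.FM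
  Pool.Agent.X312.DR
open Pool.Agent.X312.FK (composite diagClass pf pb cup unitClass IrreducibleIn)

variable {k : Type u} [Field k] {𝒱 : VarClass k} {ops : CycleOps 𝒱}
  {W : WeilCohomology.{u, v} ops} {X Y Z P : 𝒱.Obj} {C : Family W}

/-- The law for a primitive idempotent of a module over the correspondences of a nondegenerate
system. -/
theorem sys_prim {S : Sys W} {F : Type w} [Field F] {σ : F →+* W.K} {V : 𝒱.Obj → Type w}
    [∀ X, AddCommGroup (V X)] [∀ X, Module F (V X)] {R : Ops W F V} (hM : IsMdl S σ R)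
    (X : 𝒱.Obj) (hf : ∀ n, Fine σ R (pw X n))
    (hsurj : ∀ (X Y : 𝒱.Obj) (b : W.H X →ₗ[W.K] W.H Y), b ∈ S.Op X Y → ∃ a, (a, b) ∈ R X Y)
    (hn : ∀ n, S.a (pw X n) = finrank W.K (S.C (pw X n))) {m : ℕ}
    {g : Module.End F (V (pw X m))} {γ : Module.End W.K (W.H (pw X m))}
    (hg : (g, γ) ∈ R (pw X m) (pw X m)) (hgg : g ∘ₗ g = g) (hγγ : γ ∘ₗ γ = γ)
    (hprim : PrimOp S γ) :
    (∀ x : V (pw X m), g x = 0) ∨ ∀ n, FiniteDimensional F (V (pw X n)) →
      (finrank W.K (LinearMap.range γ) - cst (finrank W.K (W.H X)) (m + 1) 2 n) *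
        S.a (pw X n) ≤ finrank F (V (pw X n)) := by
  by_cases hne : ∀ x : V (pw X m), g x = 0
  · exact Or.inl hne
  right
  intro n hfd
  push Not at hne
  obtain ⟨x, hx⟩ := hne
  rcases S.exists_one_or X with ⟨l, hl, hl1⟩ | h0
  swap
  · rw [h0, Nat.cast_zero, mul_zero]
    exact Nat.cast_nonneg _
  have hz : Stable R (fun _ => ⊥) := by
    intro X Z a _ x hx
    rw [(Submodule.mem_bot F).1 hx, map_zero]
    exact Submodule.zero_mem _
  have ht : Stable R (fun _ => ⊤) := fun X Z a _ x _ => Submodule.mem_top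
  have hfd' : FiniteDimensional F (⊤ : Submodule F (V (pw X n))) :=
    Module.Finite.equiv (Submodule.topEquiv).symm
  have key := bound_prim hM hl hl1 hf hsurj hz ht (fun _ => bot_le) (m := m) hg hgg hγγ hprim
    (z := g x) Submodule.mem_top
    (congrArg (fun f : V (pw X m) →ₗ[F] V (pw X m) => f x) hgg)
    (fun h => hx ((Submodule.mem_bot F).1 h)) (le_refl (2 : ℝ)) n hfd'
  rw [finrank_bot, Nat.cast_zero, zero_add, finrank_top] at key
  rcases key with h | h
  · exact h
  · have h3 := h S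
    rw [← hn n] at h3
    have h4 : (0 : ℝ) ≤ S.a (pw X n) := Nat.cast_nonneg _
    have h5 : (S.a (pw X n) : ℝ) = 0 := by linarith
    rw [h5, mul_zero]
    exact Nat.cast_nonneg _

lemma corr_composite' (hC : IsRingFamily C) {a b : W.H (P.prod P)} (hb : Has C b) :
    W.corr (composite W a b) = W.corr b ∘ₗ W.corr a := by
  rw [composite, pf, cup, pb, pb]
  exact corr_comp' _ ((sysOf hC).even hb)

lemma primOp_of (hC : IsRingFamily C) {e : W.H (P.prod P)} (he : Has C e)
    (hirr : IrreducibleIn (Has C) e) : PrimOp (sysOf hC) (W.corr e) := by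
  intro α hα hαα h1 h2
  obtain ⟨c, hc, rfl⟩ := mem_Op.1 hα
  have hc' : Has C c := hc
  rcases hirr c hc' (corrL_injective _ _ ((corr_composite' hC hc').trans hαα))
    (corrL_injective _ _ ((corr_composite' hC hc').trans h2))
    (corrL_injective _ _ ((corr_composite' hC he).trans h1)) with h | h
  · left
    rw [h, corr_zero]
  · right
    rw [h]

variable {T : CorrData W}

/-- **The gap law for an irreducible motive**, for stable families of subspaces. -/
theorem irr_fun_law (hC : IsRingFamily C) (hT : T.IsFunctor C)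
    {N' N : ∀ Z : 𝒱.Obj, Submodule W.K (T.M Z)} (hN' : StableC C T N') (hN : StableC C T N)
    (X : 𝒱.Obj) (hX : ∀ n, IsNondeg C (pw X n)) {m : ℕ} {e : W.H ((pw X m).prod (pw X m))}
    (he : Has C e) (hee : composite W e e = e) (hirr : IrreducibleIn (Has C) e) :
    (∀ x ∈ N (pw X m), T.act e x ∈ N' (pw X m)) ∨
    ∀ n : ℕ, FK.IndepMod (N (pw X n) : Set (T.M (pw X n))) (N' (pw X n))
      (rankBound (corrRank e) (finrank W.K (W.H X)) (dimOn C (pw X n)) m n) := by
  have hsurj : ∀ (X Y : 𝒱.Obj) (b : W.H X →ₗ[W.K] W.H Y), b ∈ (sysOf hC).Op X Y →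
      ∃ a, (a, b) ∈ cOps C T N' N X Y := by
    intro X Y b hb
    obtain ⟨c, hc, rfl⟩ := mem_Op.1 hb
    exact ⟨actQ hT hN' hN hc, ⟨c, hc, rfl, fun _ _ => rfl⟩⟩
  have hee' : W.corr e ∘ₗ W.corr e = W.corr e :=
    (corr_composite' hC he).symm.trans (by rw [hee])
  have hgg : actQ hT hN' hN he ∘ₗ actQ hT hN' hN he = actQ hT hN' hN he := by
    apply LinearMap.ext
    intro y
    obtain ⟨x, hx, rfl⟩ := cls_surj y
    apply Subtype.ext
    change (N' (pw X m)).mkQ (T.act e (T.act e x)) = (N' (pw X m)).mkQ (T.act e x)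
    rw [← hT.comp_act e e he he, hee]
  rcases sys_prim (c_isMdl hC hT hN' hN) X (fun n => c_fine hC hT hN' hN (pw X n)) hsurj
    (fun n => (a_eq hC (hX n)).trans rfl) (m := m) (g := actQ hT hN' hN he) (γ := W.corr e)
    ⟨e, he, rfl, fun _ _ => rfl⟩ hgg hee' (primOp_of hC he hirr) with h | h
  · left
    intro x hx
    have h1 := h (cls x hx)
    have h2 : (N' (pw X m)).mkQ (T.act e x) = 0 := congrArg Subtype.val h1
    rwa [Submodule.mkQ_apply, Submodule.Quotient.mk_eq_zero] at h2
  · right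
    intro n
    have key : Pool.Agent.X312.FN.IndepModulo W.K (N (pw X n) : Set (T.M (pw X n)))
        (N' (pw X n) : Set (T.M (pw X n)))
        (rankBound (corrRank e) (finrank W.K (W.H X)) (dimOn C (pw X n)) m n) := by
      refine Pool.Agent.X312.FN.indep_of _ _ fun hfd => ?_
      have h1 := h n hfd
      rw [a_eq hC (hX n)] at h1
      have h4 : cst (finrank W.K (W.H X)) (m + 1) 2 n =
          4 * (m + 4) * (finrank W.K (W.H X) : ℝ) ^ (m + 6) * Real.log (n + 2) / (n + 1) := by
        unfold cst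
        push_cast
        ring
      rw [h4] at h1
      exact h1
    obtain ⟨r, a, h1, h2, h3⟩ := key
    rw [Submodule.span_eq] at h2
    exact ⟨r, a, h1, h2, h3⟩

/-- The vanishing law for an irreducible motive. -/
theorem irr_zero_law (hC : IsRingFamily C) (hT : T.IsFunctor C) (X : 𝒱.Obj)
    (hX : ∀ n, IsNondeg C (pw X n)) {m : ℕ} {e : W.H ((pw X m).prod (pw X m))}
    (he : Has C e) (hee : composite W e e = e) (hirr : IrreducibleIn (Has C) e) :
    (∀ x : T.M (pw X m), T.act e x = 0) ∨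
    ∀ n : ℕ, FK.DimAtLeast W.K (T.M (pw X n))
      (rankBound (corrRank e) (finrank W.K (W.H X)) (dimOn C (pw X n)) m n) := by
  rcases irr_fun_law hC hT (bot_stable hT) (N := fun _ => ⊤) top_stable X hX he hee hirr
    with h | h
  · left
    intro x
    exact (Submodule.mem_bot W.K).1 (h x Submodule.mem_top)
  · right
    intro n
    obtain ⟨r, a, h1, h2, h3⟩ := h n
    exact ⟨r, a, h1, LinearIndependent.of_comp (⊥ : Submodule W.K (T.M (pw X n))).mkQ h2⟩

end Pool.Agent.X312.FC
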