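import Pool.Agent.X312.FM.Defs
import Pool.Agent.X312.FK.IndDefs

/-!
# Functors on the correspondences of a ring family of cohomology classes
-/

open CategoryTheory AlgebraicGeometry

universe u v

namespace Pool.Agent.X312.FC

open Pool.Agent.H914 Pool.Agent.H914.VarClass Pool.Agent.H914.VarClass.Obj
  Pool.Agent.H914.WeilCohomology Pool.Agent.X312.FK Pool.Agent.X312.FM

variable {k : Type u} [Field k] {𝒱 : VarClass k} {ops : CycleOps 𝒱}

/-- Data of a functor on correspondences: a vector space `M X` over the field `K` of coefficients of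
the cohomology for each variety `X`, which need not be finite-dimensional, and for each class `c` of
cohomological correspondences from `X` to `Y` a map `act c : M X → M Y` (only the values for the classes
`c` of a given family play a role). -/
structure CorrData (W : WeilCohomology.{u, v} ops) where
  /-- the vector space attached to `X` -/
  M : 𝒱.Obj → Type v
  [grp : ∀ X, AddCommGroup (M X)]
  [mod : ∀ X, Module W.K (M X)]
  /-- the action of correspondences -/
  act : ∀ {X Y : 𝒱.Obj}, W.H (X.prod Y) → M X → M Y

attribute [instance] CorrData.grp CorrData.mod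

variable {W : WeilCohomology.{u, v} ops}

/-- The maps `act c` are linear, and linear in `c`. -/
structure CorrData.IsLinear (T : CorrData W) : Prop where
  act_add : ∀ {X Y : 𝒱.Obj} (c : W.H (X.prod Y)) (x y : T.M X),
    T.act c (x + y) = T.act c x + T.act c y
  act_smul : ∀ {X Y : 𝒱.Obj} (c : W.H (X.prod Y)) (t : W.K) (x : T.M X),
    T.act c (t • x) = t • T.act c x
  add_act : ∀ {X Y : 𝒱.Obj} (c d : W.H (X.prod Y)) (x : T.M X),
    T.act (c + d) x = T.act c x + T.act d x
  smul_act : ∀ {X Y : 𝒱.Obj} (t : W.K) (c : W.H (X.prod Y)) (x : T.M X),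
    T.act (t • c) x = t • T.act c x

/-- `T` is a functor on the correspondences which are classes of the family `C`. -/
structure CorrData.IsFunctor (C : Family W) (T : CorrData W) : Prop extends T.IsLinear where
  diag_act : ∀ (X : 𝒱.Obj) (x : T.M X), T.act (diagClass W X) x = x
  comp_act : ∀ {X Y Z : 𝒱.Obj} (c : W.H (X.prod Y)) (d : W.H (Y.prod Z)), Has C c →
    Has C d → ∀ x : T.M X, T.act (composite W c d) x = T.act d (T.act c x)

/-- The maps `f Z : S(Z) → T(Z)` are linear and commute with the correspondences in `C`. -/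
structure IsNatural (C : Family W) (S T : CorrData W) (f : ∀ Z : 𝒱.Obj, S.M Z → T.M Z) :
    Prop where
  add : ∀ (Z : 𝒱.Obj) (x y : S.M Z), f Z (x + y) = f Z x + f Z y
  smul : ∀ (Z : 𝒱.Obj) (t : W.K) (x : S.M Z), f Z (t • x) = t • f Z x
  comm : ∀ {Z Z' : 𝒱.Obj} (c : W.H (Z.prod Z')), Has C c → ∀ x : S.M Z,
    T.act c (f Z x) = f Z' (S.act c x)

end Pool.Agent.X312.FC
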